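import Pool.Agent.H79.BN.Chk
import Pool.Agent.H79.BN.Targets2
import Pool.Agent.H93.BL.Basic

/-!
# Board nsep_modules, row C3: soundness of the checker
-/

set_option autoImplicit false

open MeasureTheory Set Filter Topology Pool.Agent.H93.BL Pool.Agent.H79.BN

namespace Pool.Agent.H39.BN

theorem pos2_val (h1 : Pool.Agent.H79.BN.T_C1) {x y : Z5} (h : pos2 x y = true) {α β : ℝ} (hα : 0 < α)
    (hβ : 0 < β) : 0 < α * x.val + β * y.val := by
  unfold pos2 at h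
  simp only [Bool.and_eq_true, Bool.or_eq_true] at h
  obtain ⟨⟨hx, hy⟩, h⟩ := h
  obtain ⟨-, -, -, -, px, -, -, nx, -, -⟩ := h1 x y
  obtain ⟨-, -, -, -, py, -, -, ny, -, -⟩ := h1 y x
  have h3 := mul_nonneg hα.le (nx hx)
  have h4 := mul_nonneg hβ.le (ny hy)
  rcases h with h | h
  · have := mul_pos hα (px h)
    linarith
  · have := mul_pos hβ (py h)
    linarith

theorem neg2_val (h1 : Pool.Agent.H79.BN.T_C1) {x y : Z5} (h : neg2 x y = true) {α β : ℝ} (hα : 0 < α)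
    (hβ : 0 < β) : α * x.val + β * y.val < 0 := by
  unfold neg2 at h
  simp only [Bool.and_eq_true, Bool.or_eq_true] at h
  obtain ⟨⟨hx, hy⟩, h⟩ := h
  obtain ⟨-, -, -, -, -, -, px, -, nx, -⟩ := h1 x y
  obtain ⟨-, -, -, -, -, -, py, -, ny, -⟩ := h1 y x
  have h3 := mul_nonpos_of_nonneg_of_nonpos hα.le (nx hx)
  have h4 := mul_nonpos_of_nonneg_of_nonpos hβ.le (ny hy)
  rcases h with h | h
  · have := mul_neg_of_pos_of_neg hα (px h)
    linarith
  · have := mul_neg_of_pos_of_neg hβ (py h)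
    linarith

theorem rf_add (e v v' : ℂ) (α β : ℝ) :
    rf e ((α : ℂ) * v + (β : ℂ) * v') = (α : ℂ) * rf e v + (β : ℂ) * rf e v' := by
  unfold rf
  rw [map_add, map_mul, map_mul, Complex.conj_ofReal, Complex.conj_ofReal]
  ring

theorem rf_smul (e v : ℂ) (α : ℝ) : rf e ((α : ℂ) * v) = (α : ℂ) * rf e v := by
  unfold rf
  rw [map_mul, Complex.conj_ofReal]
  ring

theorem cr_left (h2 : Pool.Agent.H79.BN.T_C2) {D : Z5} (hD : 0 < D.val) (d1 d2 p : Pt) (α β : ℝ) :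
    cr ((α : ℂ) * d1.val D + (β : ℂ) * d2.val D) (p.val D) =
      √D.val * (α * (Pt.crz d1 p).val + β * (Pt.crz d2 p).val) := by
  obtain ⟨-, -, -, -, e1, -⟩ := h2 D d1 p D hD
  obtain ⟨-, -, -, -, e2, -⟩ := h2 D d2 p D hD
  rw [cr_add_left, cr_smul_left, cr_smul_left, e1, e2]
  ring

theorem cr_right (h2 : Pool.Agent.H79.BN.T_C2) {D : Z5} (hD : 0 < D.val) (d1 d2 p : Pt) (α β : ℝ) :
    cr (p.val D) ((α : ℂ) * d1.val D + (β : ℂ) * d2.val D) =
      √D.val * (α * (Pt.crz p d1).val + β * (Pt.crz p d2).val) := by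
  obtain ⟨-, -, -, -, e1, -⟩ := h2 D p d1 D hD
  obtain ⟨-, -, -, -, e2, -⟩ := h2 D p d2 D hD
  rw [cr_add_right, cr_smul_right, cr_smul_right, e1, e2]
  ring

theorem ip_right (h2 : Pool.Agent.H79.BN.T_C2) {D : Z5} (hD : 0 < D.val) (d1 d2 p : Pt) (α β : ℝ) :
    ip (p.val D) ((α : ℂ) * d1.val D + (β : ℂ) * d2.val D) =
      α * (Pt.ipz D p d1).val + β * (Pt.ipz D p d2).val := by
  obtain ⟨-, -, -, -, -, e1, -⟩ := h2 D p d1 D hD
  obtain ⟨-, -, -, -, -, e2, -⟩ := h2 D p d2 D hD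
  rw [ip_add_right, ip_smul_right, ip_smul_right, e1, e2]

/-- a vector parallel to `e` -/
theorem parallel {e d : ℂ} (he : e ≠ 0) (h : cr e d = 0) :
    d = ((ip e d / ‖e‖ ^ 2 : ℝ) : ℂ) * e := by
  have hN : (0 : ℝ) < ‖e‖ ^ 2 := pow_pos (norm_pos_iff.2 he) 2
  have hN' : ‖e‖ ^ 2 = e.re * e.re + e.im * e.im := by
    rw [Complex.sq_norm, Complex.normSq_apply]
  unfold cr at h
  apply Complex.ext
  · rw [Complex.mul_re, Complex.ofReal_re, Complex.ofReal_im, zero_mul, sub_zero,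
      div_mul_eq_mul_div, eq_div_iff hN.ne', hN']
    unfold ip
    linear_combination (-e.im) * h
  · rw [Complex.mul_im, Complex.ofReal_re, Complex.ofReal_im, zero_mul, add_zero,
      div_mul_eq_mul_div, eq_div_iff hN.ne', hN']
    unfold ip
    linear_combination e.re * h

theorem c3 (hv1 : T_V1) (hrc : T_RC) (hrv : T_RV) (hrk : T_RK) (hrp : T_RP) (hf0 : T_F0)
    (h1 : Pool.Agent.H79.BN.T_C1) (h2 : Pool.Agent.H79.BN.T_C2) :
    Pool.Agent.H79.BN.T_C3 := by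
  intro n _ w D E hn hD hw t
  have hsD : 0 < √D.val := Real.sqrt_pos.2 hD
  have hed : ∀ s, (edz w s).val D = ed (fun i => (w i).val D) s := by
    intro s
    obtain ⟨-, e1, -⟩ := h2 D (w (s + 1)) (w s) D hD
    exact e1
  have hne := (hv1 n (fun i => (w i).val D) hn hw).1
  have hone : Z5.val ⟨1, 0⟩ = 1 := by
    obtain ⟨-, -, -, -, -, -, -, -, -, e1⟩ := h1 D D
    exact e1
  have hrf : ∀ (e d1 d2 : Pt) (α β : ℝ),
      (α : ℂ) * (Pt.rfz D e d1).val D + (β : ℂ) * (Pt.rfz D e d2).val D =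
        rf (e.val D) ((α : ℂ) * d1.val D + (β : ℂ) * d2.val D) := by
    intro e d1 d2 α β
    obtain ⟨-, -, -, -, -, -, e1, -⟩ := h2 D e d1 D hD
    obtain ⟨-, -, -, -, -, -, e2, -⟩ := h2 D e d2 D hD
    rw [rf_add, e1, e2]
  -- the vector from the starting point to a vertex
  have hX : ∀ (ξ : Pt) (l : Z5), 0 < l.val → ∀ s, ((Pt.smul l (w s)).sub ξ).val D =
      (l.val : ℂ) * ((w s).val D - ξ.val D / (l.val : ℂ)) := by
    intro ξ l hl s
    have hl' : (l.val : ℂ) ≠ 0 := by exact_mod_cast hl.ne'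
    obtain ⟨-, e1, -⟩ := h2 D (Pt.smul l (w s)) ξ l hD
    obtain ⟨-, -, -, e2, -⟩ := h2 D ξ (w s) l hD
    obtain ⟨-, -, -, e3, -⟩ := h2 D (w s) (w s) l hD
    rw [e1, e3]
    field_simp
  have hcrX : ∀ (ξ : Pt) (l : Z5), 0 < l.val → ∀ (s : Fin n) (d1 d2 : Pt) (α β : ℝ),
      l.val * cr ((α : ℂ) * d1.val D + (β : ℂ) * d2.val D)
        ((w s).val D - ξ.val D / (l.val : ℂ)) =
      √D.val * (α * (Pt.crz d1 ((Pt.smul l (w s)).sub ξ)).val +
        β * (Pt.crz d2 ((Pt.smul l (w s)).sub ξ)).val) := by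
    intro ξ l hl s d1 d2 α β
    rw [← cr_left h2 hD, hX ξ l hl s, cr_smul_right]
  have hXeq : ∀ (ξ : Pt) (l : Z5), 0 < l.val → ∀ s, ξ = Pt.smul l (w s) →
      ξ.val D / (l.val : ℂ) = (w s).val D := by
    intro ξ l hl s h
    have hl' : (l.val : ℂ) ≠ 0 := by exact_mod_cast hl.ne'
    obtain ⟨-, -, -, e3, -⟩ := h2 D (w s) (w s) l hD
    rw [h, e3]
    field_simp
  -- the continuation at a vertex
  have hcont : ∀ (v s' : Fin n) (d1 d2 : Pt) (α β : ℝ) (t : Tr n),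
      (∀ (ξ : Pt) (l : Z5) (d1 d2 : Pt), 0 < l.val → chk w D E t ξ l d1 d2 = true →
        ∀ α β : ℝ, 0 < α → 0 < β →
          AbL (fun i => (w i).val D) {i | E i = true} (ξ.val D / (l.val : ℂ))
            ((α : ℂ) * d1.val D + (β : ℂ) * d2.val D)) → 0 < α → 0 < β →
      (E s' = true ∨ chk w D E t (w v) ⟨1, 0⟩ (Pt.rfz D (edz w s') d1)
        (Pt.rfz D (edz w s') d2) = true) →
      s' ∈ {i | E i = true} ∨ Ab (fun i => (w i).val D) {i | E i = true} ((w v).val D)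
        (rf (ed (fun i => (w i).val D) s') ((α : ℂ) * d1.val D + (β : ℂ) * d2.val D)) := by
    intro v s' d1 d2 α β t ih hα hβ h
    rcases h with h | h
    · exact Or.inl h
    · right
      have h3 := ih (w v) ⟨1, 0⟩ _ _ (by rw [hone]; exact one_pos) h α β hα hβ 0
      rw [hone, hrf, hed] at h3
      simpa using h3
  induction t with
  | nil =>
    intro ξ l d1 d2 hl h
    simp [chk] at h
  | crs s t ih =>
    intro ξ l d1 d2 hl h α β hα hβ
    simp only [chk, Bool.and_eq_true, Bool.or_eq_true] at h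
    obtain ⟨⟨ha, hb⟩, hc⟩ := h
    have hl' : (l.val : ℂ) ≠ 0 := by exact_mod_cast hl.ne'
    refine hrc n (fun i => (w i).val D) {i | E i = true} _ _ s hn hw ?_ ?_ ?_
    · have h3 := hcrX ξ l hl s d1 d2 α β
      have h4 := mul_neg_of_pos_of_neg hsD (neg2_val h1 ha hα hβ)
      rw [← h3] at h4
      by_contra hcon
      have h5 := mul_nonneg hl.le (not_lt.1 hcon)
      exact absurd h4 (not_lt.2 h5)
    · have h3 := hcrX ξ l hl (s + 1) d1 d2 α β
      have h4 := mul_pos hsD (pos2_val h1 hb hα hβ)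
      rw [← h3] at h4
      exact (mul_pos_iff_of_pos_left hl).1 h4
    · rcases hc with hc | hc
      · exact Or.inl hc
      · right
        set e := edz w s with he
        have hN : (Pt.ipz D e e).val = ‖ed (fun i => (w i).val D) s‖ ^ 2 := by
          obtain ⟨-, -, -, -, -, -, -, e1⟩ := h2 D e e l hD
          rw [← e1, he, hed]
        have hN0 : 0 < (Pt.ipz D e e).val := by
          rw [hN]
          exact pow_pos (norm_pos_iff.2 (hne s)) 2
        have hNC : ((Pt.ipz D e e).val : ℂ) ≠ 0 := by exact_mod_cast hN0.ne'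
        have hlN : (l.mul (Pt.ipz D e e)).val = l.val * (Pt.ipz D e e).val := by
          obtain ⟨-, -, e1, -⟩ := h1 l (Pt.ipz D e e)
          exact e1
        have h3 := ih _ (l.mul (Pt.ipz D e e)) _ _ (by rw [hlN]; exact mul_pos hl hN0) hc
          α β hα hβ
        rw [hrf] at h3
        have h4 : ((Pt.smul (Pt.ipz D e e) (Pt.smul l (w s))).add
            (Pt.rfz D e (ξ.sub (Pt.smul l (w s))))).val D / ((l.mul (Pt.ipz D e e)).val : ℂ) =
            afn ((w s).val D) (ed (fun i => (w i).val D) s) (ξ.val D / (l.val : ℂ)) := by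
          obtain ⟨e1, -⟩ := h2 D (Pt.smul (Pt.ipz D e e) (Pt.smul l (w s)))
            (Pt.rfz D e (ξ.sub (Pt.smul l (w s)))) l hD
          obtain ⟨-, -, -, e2, -⟩ := h2 D (Pt.smul l (w s)) ξ (Pt.ipz D e e) hD
          obtain ⟨-, -, -, e3, -⟩ := h2 D (w s) ξ l hD
          obtain ⟨-, -, -, -, -, -, e4, -⟩ := h2 D e (ξ.sub (Pt.smul l (w s))) l hD
          obtain ⟨-, e5, -⟩ := h2 D ξ (Pt.smul l (w s)) l hD
          have e6 : ξ.val D - (l.val : ℂ) * (w s).val D =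
              (l.val : ℂ) * (ξ.val D / (l.val : ℂ) - (w s).val D) := by
            field_simp
          rw [e1, e2, e3, ← e4, e5, e3, e6, rf_smul, hlN]
          unfold afn
          rw [← hN, he, hed]
          push_cast
          rw [← he]
          field_simp
        rw [h4] at h3
        rw [he, hed] at h3
        exact h3
  | vtx s t1 t2 ih1 ih2 =>
    intro ξ l d1 d2 hl h α β hα hβ
    simp only [chk, Bool.and_eq_true, Bool.or_eq_true] at h
    obtain ⟨⟨⟨⟨⟨ha, hb⟩, hc⟩, hd⟩, he⟩, hf⟩ := h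
    refine hrv n (fun i => (w i).val D) {i | E i = true} _ _ s hn hw ?_ ?_ ?_ ?_ ?_
    · have h3 := hcrX ξ l hl s d1 d2 α β
      obtain ⟨-, -, -, -, -, z1, -⟩ := h1 (Pt.crz d1 ((Pt.smul l (w s)).sub ξ)) D
      obtain ⟨-, -, -, -, -, z2, -⟩ := h1 (Pt.crz d2 ((Pt.smul l (w s)).sub ξ)) D
      rw [z1 ha, z2 hb, mul_zero, mul_zero, add_zero, mul_zero] at h3
      exact (mul_eq_zero.1 h3).resolve_left hl.ne'
    · have h4 := mul_neg_of_pos_of_neg hsD (neg2_val h1 hd hα hβ)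
      rw [← cr_right h2 hD, hed] at h4
      exact h4
    · have h4 := mul_neg_of_pos_of_neg hsD (neg2_val h1 hc hα hβ)
      rw [← cr_right h2 hD, hed] at h4
      exact h4
    · exact hcont s (s - 1) d1 d2 α β t1 ih1 hα hβ he
    · exact hcont s s d1 d2 α β t2 ih2 hα hβ hf
  | cor s t ih =>
    intro ξ l d1 d2 hl h α β hα hβ
    simp only [chk, Bool.and_eq_true, Bool.or_eq_true, decide_eq_true_eq] at h
    obtain ⟨⟨⟨ha, hb⟩, hc⟩, hd⟩ := h
    rw [hXeq ξ l hl s ha]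
    refine (hrk n (fun i => (w i).val D) {i | E i = true} _ s hn hw).1 ?_ ?_ ?_
    · have h4 := mul_pos hsD (pos2_val h1 hb hα hβ)
      rw [← cr_right h2 hD, hed] at h4
      exact h4
    · have h4 := mul_neg_of_pos_of_neg hsD (neg2_val h1 hc hα hβ)
      rw [← cr_right h2 hD, hed] at h4
      exact h4
    · exact hcont s s d1 d2 α β t ih hα hβ hd
  | cor' s t ih =>
    intro ξ l d1 d2 hl h α β hα hβ
    simp only [chk, Bool.and_eq_true, Bool.or_eq_true, decide_eq_true_eq] at h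
    obtain ⟨⟨⟨ha, hb⟩, hc⟩, hd⟩ := h
    rw [hXeq ξ l hl s ha]
    refine (hrk n (fun i => (w i).val D) {i | E i = true} _ s hn hw).2 ?_ ?_ ?_
    · have h4 := mul_neg_of_pos_of_neg hsD (neg2_val h1 hc hα hβ)
      rw [← cr_right h2 hD, hed] at h4
      exact h4
    · have h4 := mul_pos hsD (pos2_val h1 hb hα hβ)
      rw [← cr_right h2 hD, hed] at h4
      exact h4
    · exact hcont s (s - 1) d1 d2 α β t ih hα hβ hd
  | par s t ih =>
    intro ξ l d1 d2 hl h α β hα hβ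
    simp only [chk, Bool.and_eq_true, Bool.or_eq_true, decide_eq_true_eq] at h
    obtain ⟨⟨⟨⟨⟨ha, hb⟩, hc⟩, hd⟩, he⟩, hf⟩ := h
    rw [hXeq ξ l hl s ha]
    obtain ⟨-, -, -, -, -, z1, -⟩ := h1 (Pt.crz (edz w s) d1) D
    obtain ⟨-, -, -, -, -, z2, -⟩ := h1 (Pt.crz (edz w s) d2) D
    obtain ⟨-, -, -, -, p1, -⟩ := h1 (Pt.ipz D (edz w s) d1) D
    obtain ⟨-, -, -, -, p2, -⟩ := h1 (Pt.ipz D (edz w s) d2) D
    have e1 := cr_right h2 hD d1 d2 (edz w s) α β
    rw [z1 hb, z2 hc, mul_zero, mul_zero, add_zero, mul_zero, hed] at e1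
    have e2 := ip_right h2 hD d1 d2 (edz w s) α β
    rw [hed] at e2
    have e3 : 0 < ip (ed (fun i => (w i).val D) s)
        ((α : ℂ) * d1.val D + (β : ℂ) * d2.val D) := by
      rw [e2]
      exact add_pos (mul_pos hα (p1 hd)) (mul_pos hβ (p2 he))
    have e4 := parallel (hne s) e1
    have e5 : 0 < ip (ed (fun i => (w i).val D) s)
        ((α : ℂ) * d1.val D + (β : ℂ) * d2.val D) / ‖ed (fun i => (w i).val D) s‖ ^ 2 :=
      div_pos e3 (pow_pos (norm_pos_iff.2 (hne s)) 2)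
    exact (hrp n (fun i => (w i).val D) {i | E i = true} _ s _ hn hw e5).1 e4
      (hcont (s + 1) (s + 1) d1 d2 α β t ih hα hβ hf)
  | par' s t ih =>
    intro ξ l d1 d2 hl h α β hα hβ
    simp only [chk, Bool.and_eq_true, Bool.or_eq_true, decide_eq_true_eq] at h
    obtain ⟨⟨⟨⟨⟨ha, hb⟩, hc⟩, hd⟩, he⟩, hf⟩ := h
    rw [hXeq ξ l hl s ha]
    obtain ⟨-, -, -, -, -, z1, -⟩ := h1 (Pt.crz (edz w (s - 1)) d1) D
    obtain ⟨-, -, -, -, -, z2, -⟩ := h1 (Pt.crz (edz w (s - 1)) d2) D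
    obtain ⟨-, -, -, -, -, -, p1, -⟩ := h1 (Pt.ipz D (edz w (s - 1)) d1) D
    obtain ⟨-, -, -, -, -, -, p2, -⟩ := h1 (Pt.ipz D (edz w (s - 1)) d2) D
    have e1 := cr_right h2 hD d1 d2 (edz w (s - 1)) α β
    rw [z1 hb, z2 hc, mul_zero, mul_zero, add_zero, mul_zero, hed] at e1
    have e2 := ip_right h2 hD d1 d2 (edz w (s - 1)) α β
    rw [hed] at e2
    have e3 : ip (ed (fun i => (w i).val D) (s - 1))
        ((α : ℂ) * d1.val D + (β : ℂ) * d2.val D) < 0 := by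
      rw [e2]
      exact add_neg (mul_neg_of_pos_of_neg hα (p1 hd)) (mul_neg_of_pos_of_neg hβ (p2 he))
    have e4 := parallel (hne (s - 1)) e1
    have e5 : 0 < -(ip (ed (fun i => (w i).val D) (s - 1))
        ((α : ℂ) * d1.val D + (β : ℂ) * d2.val D) /
          ‖ed (fun i => (w i).val D) (s - 1)‖ ^ 2) :=
      neg_pos.2 (div_neg_of_neg_of_pos e3 (pow_pos (norm_pos_iff.2 (hne (s - 1))) 2))
    refine (hrp n (fun i => (w i).val D) {i | E i = true} _ s _ hn hw e5).2 ?_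
      (hcont (s - 1) (s - 2) d1 d2 α β t ih hα hβ hf)
    rw [Complex.ofReal_neg, neg_mul, neg_neg]
    exact e4

end Pool.Agent.H39.BN
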